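import Pool.Agent.H68.GHY.Targets

/-!
Row LT4 of the board ghy: the fourth moment of the Dirichlet polynomials, from the large sieve for
the short sums and Gallagher's inequality.
-/

namespace Pool.Agent.H54.GHY

open MeasureTheory Pool.Agent.H34.GM Pool.Agent.H34.GZ Pool.Agent.H34.GU Pool.Agent.H34.GA
  Pool.Agent.H68.GHY

theorem pf_LT4 (hL : T_LSD) (hG : T_GAL) (hS : T_SQD) : T_LT4 := by
  intro m hm ε hε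
  obtain ⟨c, C, K, hc, hC, h⟩ := hL m hm ε hε
  obtain ⟨C', hC', hg⟩ := hG
  refine ⟨c, C' * C, K, hc, by positivity, ?_⟩
  intro N _ T D hsys ι _ _ F lam P hF hO δ hδ hδ1 hcd y a hy ha
  have h0 := h N T D hsys ι F lam P hF hO δ hδ hδ1 hcd y a hy ha
  have h1 : ∀ i, ∫⁻ t in Set.Icc (-δ⁻¹) δ⁻¹, ENNReal.ofReal (‖DP m (lam i) a y t‖ ^ 4) ≤
      ENNReal.ofReal (C' * δ⁻¹ ^ 2) *
        ∫⁻ x0 in Set.Ioi (0 : ℝ), ENNReal.ofReal (‖Bs m (lam i) a y δ x0‖ ^ 2 * x0⁻¹) := by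
    intro i
    have e : ∀ t : ℝ, ‖DP m (lam i) a y t‖ ^ 4 = ‖∑ k ∈ Finset.Icc 1 ⌊y ^ 2⌋₊, bq m (lam i) a k *
        (k : ℂ) ^ (-((t : ℂ) * Complex.I))‖ ^ 2 := by
      intro t
      rw [← hS m (lam i) a y t hy ha, norm_pow]
      ring
    simp only [e]
    exact hg δ hδ hδ1 ⌊y ^ 2⌋₊ (bq m (lam i) a)
  calc ∑ i, ∫⁻ t in Set.Icc (-δ⁻¹) δ⁻¹, ENNReal.ofReal (‖DP m (lam i) a y t‖ ^ 4)
      ≤ ∑ i, ENNReal.ofReal (C' * δ⁻¹ ^ 2) *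
        ∫⁻ x0 in Set.Ioi (0 : ℝ), ENNReal.ofReal (‖Bs m (lam i) a y δ x0‖ ^ 2 * x0⁻¹) :=
        Finset.sum_le_sum fun i _ => h1 i
    _ = ENNReal.ofReal (C' * δ⁻¹ ^ 2) * ∑ i,
        ∫⁻ x0 in Set.Ioi (0 : ℝ), ENNReal.ofReal (‖Bs m (lam i) a y δ x0‖ ^ 2 * x0⁻¹) := by
        rw [Finset.mul_sum]
    _ ≤ ENNReal.ofReal (C' * δ⁻¹ ^ 2) * ENNReal.ofReal (C * δ ^ 2 * δ⁻¹ ^ (m ^ 2) *
        (N : ℝ) ^ ((m : ℝ) + ε) *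
        (1 + Real.log (y * N * δ⁻¹)) ^ K * y ^ (2 * m) * (1 + δ ^ m * y ^ 2 / N) ^ m) := by
        gcongr
    _ = ENNReal.ofReal (C' * C * δ⁻¹ ^ (m ^ 2) * (N : ℝ) ^ ((m : ℝ) + ε) *
        (1 + Real.log (y * N * δ⁻¹)) ^ K * y ^ (2 * m) * (1 + δ ^ m * y ^ 2 / N) ^ m) := by
        rw [← ENNReal.ofReal_mul (by positivity)]
        congr 1
        have e2 : δ⁻¹ ^ 2 * δ ^ 2 = 1 := by
          rw [← mul_pow, inv_mul_cancel₀ hδ.ne', one_pow]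
        calc _ = (δ⁻¹ ^ 2 * δ ^ 2) * (C' * C * δ⁻¹ ^ (m ^ 2) * (N : ℝ) ^ ((m : ℝ) + ε) *
            (1 + Real.log (y * N * δ⁻¹)) ^ K * y ^ (2 * m) * (1 + δ ^ m * y ^ 2 / N) ^ m) := by ring
          _ = _ := by rw [e2, one_mul]

end Pool.Agent.H54.GHY
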